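import Pool.Agent.Helper20.NP.Stmts

/-!
MP_b6a655_nt, module UBR: the general upper bound, group-theoretic form.
-/

set_option autoImplicit false

namespace Pool.Agent.Helper20.NP

open Pool.Agent.Helper21.DN

universe u

section
open scoped Classical

theorem ubr_x0_le {G : Type u} [Group G] [Fintype G] (s : G → ℕ) (c : ℕ)
    (h : ∀ g : G, g ≠ 1 → s g ≤ c) : x0 s ≤ c := by
  unfold x0
  apply Finset.sup_le
  intro g hg
  exact h g (Finset.mem_filter.1 hg).2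

theorem ubr_le_x0 {G : Type u} [Group G] [Fintype G] (s : G → ℕ) (g : G) (hg : g ≠ 1) :
    s g ≤ x0 s := by
  unfold x0
  exact Finset.le_sup (Finset.mem_filter.2 ⟨Finset.mem_univ _, hg⟩)

theorem ubr_sum1 {G : Type u} [Group G] [Fintype G] (s : G → ℕ) : S1 s + s 1 = ∑ g, s g := by
  unfold S1
  rw [Finset.filter_ne', Finset.sum_erase_add _ _ (Finset.mem_univ _)]

theorem ubr_sumO {G : Type u} [Group G] [Fintype G] (f : G → ℕ) (H : Subgroup G) [Fintype H] :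
    SO f H + ∑ h : H, f (h : G) = ∑ g, f g := by
  unfold SO
  rw [← Finset.sum_filter_not_add_sum_filter Finset.univ (fun g => g ∈ H)]
  congr 1
  refine Finset.sum_bij (fun (h : H) _ => (h : G)) ?_ ?_ ?_ ?_
  · intro h _
    exact Finset.mem_filter.2 ⟨Finset.mem_univ _, h.2⟩
  · intro a _ b _ hab
    exact Subtype.ext hab
  · intro g hg
    exact ⟨⟨g, (Finset.mem_filter.1 hg).2⟩, Finset.mem_univ _, rfl⟩
  · intro h _
    rfl

end

theorem ubr_x0 {G : Type u} [Group G] [Fintype G] (f : G → ℕ) (H : Subgroup G) [Fintype H] (z : G)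
    (hz : z ∈ H) (hz1 : z ≠ 1) (hzf : f z = x0 f) : x0 (fun h : H => f (h : G)) = f z := by
  apply le_antisymm
  · apply ubr_x0_le
    intro g hg
    rw [hzf]
    exact ubr_le_x0 f g (fun h => hg (Subtype.ext h))
  · exact ubr_le_x0 (fun h : H => f (h : G)) ⟨z, hz⟩ (fun h => hz1 (congrArg Subtype.val h))

theorem ubr_S1 {G : Type u} [Group G] [Fintype G] (f : G → ℕ) (H : Subgroup G) [Fintype H] :
    S1 f = S1 (fun h : H => f (h : G)) + SO f H := by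
  have h1 := ubr_sum1 f
  have h2 := ubr_sum1 (fun h : H => f (h : G))
  have h3 := ubr_sumO f H
  have h4 : f ((1 : H) : G) = f 1 := rfl
  rw [h4] at h2
  omega

theorem ubr_core (h2 : ST_RS.{u}) (h3 : ST_RQ.{u}) (h4 : ST_QS.{u})
    (h1 : ST_RGF.{u}) (h5 : ST_PC.{u}) (h7 : ST_OUT.{u}) (p : ℕ) [Fact p.Prime] (hp : p ≠ 2)
    (G : Type u) [Group G] [Fintype G] (f : G → ℕ) (hf : RG p G f) (z : G)
    (hzp : orderOf z = p) (hzf : f z = x0 f) (H R : Subgroup G)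
    (hN : (R.subgroupOf H).Normal) (hzR : z ∉ R) (hzH : z ∈ H)
    (hpc : ∀ x ∈ H, x ^ p ∈ R → ∀ y ∈ H, x * y * x⁻¹ * y⁻¹ ∈ R) :
    Nat.card H ∣ S1 f + x0 f := by
  classical
  have hP : IsPGroup p G := by
    obtain ⟨k, K, L, _, _, _, _, _, _, _, _, κ, v, D, e, j, h⟩ := hf
    exact h.2.1
  have hgrf : GRF f := h1 p G f hf
  have hz1 : z ≠ 1 := by
    intro h
    rw [h, orderOf_one] at hzp
    exact (Fact.out : p.Prime).one_lt.ne hzp
  have hfH : RG p H (fun h : H => f (h : G)) := h2 p G f hf H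
  obtain ⟨fQ, hfQ, hcs⟩ := h3 p H (fun h : H => f (h : G)) hfH (R.subgroupOf H)
  obtain ⟨e1, e2, e3, _⟩ := h4 p H (fun h : H => f (h : G)) (h1 p H _ hfH).rf (R.subgroupOf H)
    fQ hcs
  have hx0 : x0 (fun h : H => f (h : G)) = f z := ubr_x0 f H z hzH hz1 hzf
  have hzN : (⟨z, hzH⟩ : H) ∉ R.subgroupOf H := by
    rw [Subgroup.mem_subgroupOf]
    exact hzR
  obtain ⟨e4, e5⟩ := e3 ⟨z, hzH⟩ hzN hx0.symm
  have hnt : Nontrivial (H ⧸ R.subgroupOf H) := by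
    refine ⟨⟨((⟨z, hzH⟩ : H) : H ⧸ R.subgroupOf H), 1, ?_⟩⟩
    intro h
    exact hzN ((QuotientGroup.eq_one_iff _).1 h)
  have hcent : ∀ x : H ⧸ R.subgroupOf H, x ^ p = 1 → x ∈ Subgroup.center (H ⧸ R.subgroupOf H) := by
    intro x hx
    obtain ⟨x, rfl⟩ := QuotientGroup.mk_surjective x
    rw [← QuotientGroup.mk_pow, QuotientGroup.eq_one_iff, Subgroup.mem_subgroupOf] at hx
    rw [Subgroup.mem_center_iff]
    intro y
    obtain ⟨y, rfl⟩ := QuotientGroup.mk_surjective y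
    have h6 := hpc y y.2
    have h7 := hpc x x.2 hx y y.2
    have h8 : x * y * x⁻¹ * y⁻¹ ∈ R.subgroupOf H := by
      rw [Subgroup.mem_subgroupOf]
      exact h7
    have h9 := (QuotientGroup.eq_one_iff (x * y * x⁻¹ * y⁻¹)).2 h8
    rw [QuotientGroup.mk_mul, QuotientGroup.mk_mul, QuotientGroup.mk_mul, QuotientGroup.mk_inv,
      QuotientGroup.mk_inv, mul_inv_eq_one, mul_inv_eq_iff_eq_mul] at h9
    exact h9.symm
  have hdiv := h5 p hp (H ⧸ R.subgroupOf H) fQ hfQ hnt hcent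
  have h10 : Nat.card (R.subgroupOf H) * Fintype.card (H ⧸ R.subgroupOf H) = Nat.card H := by
    rw [← Nat.card_eq_fintype_card, mul_comm]
    exact (Subgroup.card_eq_card_quotient_mul_card_subgroup (R.subgroupOf H)).symm
  have h11 : Nat.card (R.subgroupOf H) * (S1 fQ + x0 fQ) =
      S1 (fun h : H => f (h : G)) + x0 f := by
    rw [mul_add, e1, ← e5, e4, hx0, hzf, ← e2]
    ring
  have h12 : Nat.card H ∣ S1 (fun h : H => f (h : G)) + x0 f := by
    rw [← h10, ← h11]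
    exact mul_dvd_mul_left _ hdiv
  have h13 : Nat.card H ∣ SO f H := by
    have h14 := h7 p G f hP hgrf H
    have h15 : ∑ g ∈ (Set.toFinite {g : G | g ∉ H}).toFinset, f g = SO f H := by
      unfold SO
      apply Finset.sum_congr
      · ext g
        simp
      · intro g _
        rfl
    rw [← h15]
    exact h14
  rw [ubr_S1 f H, add_right_comm]
  exact dvd_add h12 h13

theorem st_UBR (h1 : ST_RGF.{u}) (h2 : ST_RS.{u}) (h3 : ST_RQ.{u}) (h4 : ST_QS.{u})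
    (h5 : ST_PC.{u}) (h6 : ST_CENT.{u}) (h7 : ST_OUT.{u}) : ST_UBR.{u} := by
  intro p _ hp G _ _ f hf hnt
  have hP : IsPGroup p G := by
    obtain ⟨k, K, L, _, _, _, _, _, _, _, _, κ, v, D, e, j, h⟩ := hf
    exact h.2.1
  obtain ⟨z, hzc, hzp, hzf⟩ := h6 p G f hP hnt (h1 p G f hf).rf
  refine ⟨z, hzc, hzp, ?_⟩
  intro H R hRH hN hzR hpc
  have hcomm : ∀ y : G, y * z = z * y := fun y => (Subgroup.mem_center_iff.1 hzc y)
  have hzk : ∀ (y : G) (k : ℤ), y * z ^ k = z ^ k * y := by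
    intro y k
    exact (Commute.zpow_right (show Commute y z from hcomm y) k)
  -- the elements of `H ⊔ ⟨z⟩`
  let H' : Subgroup G := 
    { carrier := {x | ∃ h ∈ H, ∃ k : ℤ, x = h * z ^ k}
      mul_mem' := by
        rintro _ _ ⟨a, ha, k, rfl⟩ ⟨b, hb, l, rfl⟩
        refine ⟨a * b, H.mul_mem ha hb, k + l, ?_⟩
        rw [zpow_add]
        calc a * z ^ k * (b * z ^ l) = a * (z ^ k * b) * z ^ l := by group
          _ = a * (b * z ^ k) * z ^ l := by rw [hzk b k]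
          _ = a * b * (z ^ k * z ^ l) := by group
      one_mem' := ⟨1, H.one_mem, 0, by simp⟩
      inv_mem' := by
        rintro _ ⟨a, ha, k, rfl⟩
        refine ⟨a⁻¹, H.inv_mem ha, -k, ?_⟩
        rw [mul_inv_rev, zpow_neg, ← zpow_neg, ← hzk] }
  have hHH' : H ≤ H' := fun h hh => ⟨h, hh, 0, by simp⟩
  have hzH' : z ∈ H' := ⟨1, H.one_mem, 1, by simp⟩
  have hN' : (R.subgroupOf H').Normal := by
    constructor
    intro n hn g
    rw [Subgroup.mem_subgroupOf] at hn ⊢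
    obtain ⟨a, ha, k, hk⟩ := g.2
    have h8 : (⟨a, ha⟩ : H) * ⟨(n : G), hRH hn⟩ * (⟨a, ha⟩ : H)⁻¹ ∈ R.subgroupOf H :=
      hN.conj_mem ⟨(n : G), hRH hn⟩ (by rw [Subgroup.mem_subgroupOf]; exact hn) ⟨a, ha⟩
    rw [Subgroup.mem_subgroupOf] at h8
    have h9 : ((g * n * g⁻¹ : H') : G) = a * n * a⁻¹ := by
      have h10 : ((g * n * g⁻¹ : H') : G) = (g : G) * n * (g : G)⁻¹ := rfl
      rw [h10, hk, mul_inv_rev]
      calc a * z ^ k * (n : G) * ((z ^ k)⁻¹ * a⁻¹) = a * (z ^ k * (n : G)) * (z ^ k)⁻¹ * a⁻¹ := by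
            group
        _ = a * ((n : G) * z ^ k) * (z ^ k)⁻¹ * a⁻¹ := by rw [hzk (n : G) k]
        _ = a * n * a⁻¹ := by group
    rw [h9]
    exact h8
  have hpc' : ∀ x ∈ H', x ^ p ∈ R → ∀ y ∈ H', x * y * x⁻¹ * y⁻¹ ∈ R := by
    rintro _ ⟨a, ha, k, rfl⟩ hx _ ⟨b, hb, l, rfl⟩
    have h8 : (a * z ^ k) ^ p = a ^ p := by
      rw [Commute.mul_pow (hzk a k), ← zpow_natCast (z ^ k), ← zpow_mul, mul_comm, zpow_mul,
        zpow_natCast, ← hzp, pow_orderOf_eq_one]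
      simp
    rw [h8] at hx
    have h9 : a * z ^ k * (b * z ^ l) * (a * z ^ k)⁻¹ * (b * z ^ l)⁻¹ = a * b * a⁻¹ * b⁻¹ := by
      rw [mul_inv_rev, mul_inv_rev]
      calc a * z ^ k * (b * z ^ l) * ((z ^ k)⁻¹ * a⁻¹) * ((z ^ l)⁻¹ * b⁻¹)
          = a * (z ^ k * b) * z ^ l * (z ^ k)⁻¹ * a⁻¹ * (z ^ l)⁻¹ * b⁻¹ := by group
        _ = a * (b * z ^ k) * z ^ l * (z ^ k)⁻¹ * a⁻¹ * (z ^ l)⁻¹ * b⁻¹ := by rw [hzk b k]
        _ = a * b * (z ^ l * a⁻¹) * (z ^ l)⁻¹ * b⁻¹ := by group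
        _ = a * b * (a⁻¹ * z ^ l) * (z ^ l)⁻¹ * b⁻¹ := by rw [hzk a⁻¹ l]
        _ = a * b * a⁻¹ * b⁻¹ := by group
    rw [h9]
    exact hpc a ha hx b hb
  have h8 := ubr_core h2 h3 h4 h1 h5 h7 p hp G f hf z hzp hzf H' R hN' hzR hzH'
    hpc'
  exact (Subgroup.card_dvd_of_le hHH').trans h8

end Pool.Agent.Helper20.NP
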